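import Mathlib

namespace Pool.Agent.Results.MP_e0279d_an.NotLine

open Polynomial

/-- equation `(*)` with `l = B/ω` has a nonzero polynomial solution at the point `(lω, A)`. -/
def HasPoly (ω : ℝ) (l : ℕ) (A : ℝ) : Prop :=
  ∃ E : ℂ[X], E ≠ 0 ∧
    X ^ 2 * derivative (derivative E) +
      (C (1 - l : ℂ) * X + C (A / (2 * ω) : ℂ) * (1 - X ^ 2)) * derivative E +
      (C (1 / (4 * ω ^ 2) - (A / (2 * ω)) ^ 2 : ℂ) + C (A / (2 * ω) * (l - 1) : ℂ) * X) * E = 0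

lemma iff_rec (E : ℂ[X]) (l m a : ℂ) :
    X ^ 2 * derivative (derivative E) + (C (1 - l) * X + C m * (1 - X ^ 2)) * derivative E +
      (C a + C (m * (l - 1)) * X) * E = 0 ↔ a * E.coeff 0 + m * E.coeff 1 = 0 ∧
      ∀ k : ℕ, (a + (k + 1) * (k + 1 - l)) * E.coeff (k + 1) + m * (k + 2) * E.coeff (k + 2) +
        m * (l - k - 1) * E.coeff k = 0 := by
  have e : X ^ 2 * derivative (derivative E) + (C (1 - l) * X + C m * (1 - X ^ 2)) * derivative E +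
      (C a + C (m * (l - 1)) * X) * E = C a * E + C m * derivative E + X * (C (1 - l) *
        derivative E + C (m * (l - 1)) * E + X * (derivative (derivative E) -
          C m * derivative E)) := by ring
  rw [e, Polynomial.ext_iff, ← Nat.and_forall_add_one]
  refine and_congr (by simp [coeff_derivative]) (forall_congr' fun k => ?_)
  rcases k with _ | k <;>
    simp only [coeff_add, coeff_C_mul, coeff_X_mul, coeff_derivative, coeff_sub, coeff_zero,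
      mul_coeff_zero, coeff_X_zero, coeff_C_zero] <;>
    push_cast <;> constructor <;> intro h <;> linear_combination h

lemma top {E : ℂ[X]} (hE : E ≠ 0) {l : ℕ} {m a : ℂ} (hm : m ≠ 0)
    (h : ∀ k : ℕ, (a + (k + 1) * (k + 1 - l)) * E.coeff (k + 1) + m * (k + 2) * E.coeff (k + 2) +
      m * (l - k - 1) * E.coeff k = 0) : E.coeff l = 0 ∧ E.coeff (l - 1) ≠ 0 := by
  have h1 := h E.natDegree
  rw [coeff_eq_zero_of_natDegree_lt (by omega), coeff_eq_zero_of_natDegree_lt (by omega :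
    E.natDegree < E.natDegree + 2)] at h1
  have h2 : E.coeff E.natDegree ≠ 0 := leadingCoeff_ne_zero.2 hE
  have h3 : (l : ℂ) = (E.natDegree + 1 : ℕ) := by
    simp only [mul_zero, zero_add, mul_eq_zero, hm, h2, false_or, or_false] at h1
    push_cast; linear_combination h1
  have h4 : l = E.natDegree + 1 := by exact_mod_cast h3
  exact ⟨coeff_eq_zero_of_natDegree_lt (by omega), by rwa [h4]⟩

theorem result (ω : ℝ) (hω : 0 < ω) :
    IsGreatest {A | HasPoly ω 1 A} 1 ∧ IsGreatest {A | HasPoly ω 2 A} √(1 + 2 * ω) ∧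
    (∃ A, 0 < A ∧ HasPoly ω 3 A) ∧ ∀ A, HasPoly ω 3 A →
      ¬ Collinear ℝ {((ω, 1) : ℝ × ℝ), (2 * ω, √(1 + 2 * ω)), (3 * ω, A)} := by
  have hw : (ω : ℂ) ≠ 0 := by exact_mod_cast hω.ne'
  have hm : ∀ A : ℝ, 0 < A → (A / (2 * ω) : ℂ) ≠ 0 := fun A h =>
    div_ne_zero (by exact_mod_cast h.ne') (mul_ne_zero two_ne_zero hw)
  obtain ⟨s, hs, hs1, hs2⟩ : ∃ s, √(1 + 2 * ω) = s ∧ 1 < s ∧ s ^ 2 = 1 + 2 * ω :=
    ⟨_, rfl, Real.lt_sqrt_of_sq_lt (by linarith), Real.sq_sqrt (by linarith)⟩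
  have hs3 : (s : ℂ) ^ 2 = 1 + 2 * ω := by exact_mod_cast hs2
  rw [hs]
  refine ⟨⟨⟨1, one_ne_zero, (iff_rec _ _ _ _).2 ⟨?_, fun k => ?_⟩⟩, ?_⟩,
    ⟨⟨C (s : ℂ) + X, ?_, (iff_rec _ _ _ _).2 ⟨?_, fun k => ?_⟩⟩, ?_⟩, ?_, ?_⟩
  · simp [coeff_one]; field_simp; norm_num
  · rcases k with _ | k <;> simp [coeff_one]
  · rintro A ⟨E, hE, h⟩
    by_contra hA
    push Not at hA
    obtain ⟨h0, h⟩ := (iff_rec _ _ _ _).1 h
    obtain ⟨t1, t2⟩ := top hE (hm A (by linarith)) h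
    rw [t1, mul_zero, add_zero, mul_eq_zero, or_iff_left t2] at h0
    have : (A : ℂ) ^ 2 = 1 := by field_simp at h0; linear_combination -h0 / 4
    have : A ^ 2 = 1 := by exact_mod_cast this
    nlinarith
  · rw [add_comm]; exact X_add_C_ne_zero _
  · simp [coeff_X, coeff_C]; field_simp; linear_combination (-4 * s) * hs3
  · rcases k with _ | _ | k <;> simp [coeff_X, coeff_C]
    · field_simp; linear_combination (8 * ω - 4) * hs3
    · norm_num
  · rintro A ⟨E, hE, h⟩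
    by_contra hA
    push Not at hA
    obtain ⟨h0, h⟩ := (iff_rec _ _ _ _).1 h
    obtain ⟨t1, t2⟩ := top hE (hm A (by linarith)) h
    have h1 := h 0
    simp only [t1, zero_add, Nat.cast_zero, Nat.cast_ofNat] at h1 t2
    have : ((1 - A ^ 2) ^ 2 - 4 * ω ^ 2 : ℂ) * E.coeff 1 = 0 := by
      field_simp at h0 h1
      linear_combination (1 - A ^ 2) / 4 * h1 - 2 * ω * A / 4 * h0
    have : ((1 - A ^ 2) ^ 2 - 4 * ω ^ 2 : ℂ) = 0 := (mul_eq_zero.1 this).resolve_right t2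
    have : (1 - A ^ 2) ^ 2 - 4 * ω ^ 2 = 0 := by exact_mod_cast this
    have h5 : 1 + 2 * ω < A ^ 2 := by nlinarith
    nlinarith
  · obtain ⟨A, hA, h⟩ : ∃ A ∈ Set.Icc 1 (2 + 2 * ω),
        (1 - A ^ 2) ^ 3 - 16 * ω ^ 2 * (1 - A ^ 2) + 64 * ω ^ 4 = 0 := by
      refine intermediate_value_Icc' (f := fun A : ℝ => (1 - A ^ 2) ^ 3 - 16 * ω ^ 2 * (1 - A ^ 2) +
        64 * ω ^ 4) (by linarith) (by fun_prop) ⟨?_, by simp; positivity⟩
      have : 0 ≤ ω ^ 2 := by positivity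
      have : 0 ≤ ω ^ 3 := by positivity
      have : 0 ≤ ω ^ 4 := by positivity
      have : 0 ≤ ω ^ 5 := by positivity
      have : 0 ≤ ω ^ 6 := by positivity
      nlinarith
    have h' : ((1 - A ^ 2) ^ 3 - 16 * ω ^ 2 * (1 - A ^ 2) + 64 * ω ^ 4 : ℂ) = 0 := by
      exact_mod_cast h
    have hA0 : (A : ℂ) ≠ 0 := by exact_mod_cast (by linarith [hA.1] : A ≠ 0)
    refine ⟨A, by linarith [hA.1], C (4 * ω ^ 2 * A ^ 2 : ℂ) + C (-2 * ω * A * (1 - A ^ 2) : ℂ) * X +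
      C (((1 - A ^ 2) * (1 - A ^ 2 - 8 * ω ^ 2) - 8 * ω ^ 2 * A ^ 2) / 2 : ℂ) * X ^ 2, fun h0 => ?_,
      (iff_rec _ _ _ _).2 ⟨?_, fun k => ?_⟩⟩
    · have := congrArg (coeff · 0) h0
      simp only [coeff_add, coeff_C_mul, coeff_X, coeff_X_pow, coeff_C] at this
      simp [hw, hA0] at this
    · simp only [coeff_add, coeff_C_mul, coeff_X, coeff_X_pow, coeff_C]; simp; field_simp; ring
    · rcases k with _ | _ | _ | k <;>
        simp only [coeff_add, coeff_C_mul, coeff_X, coeff_X_pow, coeff_C] <;> simp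
      · field_simp; ring
      · field_simp; linear_combination 4 * h'
      · norm_num
  · rintro A ⟨E, hE, h⟩ hc
    have hA : A = 2 * s - 1 := by
      obtain ⟨v, hv⟩ := (collinear_iff_of_mem (p₀ := (ω, 1)) (by simp)).1 hc
      obtain ⟨a, ha⟩ := hv (2 * ω, s) (by simp)
      obtain ⟨b, hb⟩ := hv (3 * ω, A) (by simp)
      simp only [Prod.ext_iff, vadd_eq_add, Prod.fst_add, Prod.snd_add, Prod.smul_fst,
        Prod.smul_snd, smul_eq_mul] at ha hb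
      have : ω * (A - (2 * s - 1)) = 0 := by
        linear_combination (a * v.1) * hb.2 - (b * v.1) * ha.2 + (A - 1) * ha.1 - (s - 1) * hb.1
      linarith [(mul_eq_zero.1 this).resolve_left hω.ne']
    obtain ⟨h0, h⟩ := (iff_rec _ _ _ _).1 h
    obtain ⟨t1, t2⟩ := top hE (hm A (by linarith)) h
    have h1 := h 0
    have h2 := h 1
    simp only [t1, zero_add, Nat.cast_zero, Nat.cast_ofNat, Nat.cast_one, Nat.reduceAdd,
      Nat.reduceSub] at h1 h2 t2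
    have hA0 : (A : ℂ) ≠ 0 := by exact_mod_cast (by linarith : A ≠ 0)
    have : ((1 - A ^ 2) ^ 3 - 16 * ω ^ 2 * (1 - A ^ 2) + 64 * ω ^ 4 : ℂ) * E.coeff 2 = 0 := by
      field_simp at h0 h1 h2
      linear_combination ((1 - A ^ 2) * (1 - A ^ 2 - 8 * ω ^ 2) - 8 * ω ^ 2 * A ^ 2) / 4 * h2 -
        2 * ω * A * (1 - A ^ 2) / 4 * h1 + 8 * ω ^ 2 * A ^ 2 / 4 * h0
    have : ((1 - A ^ 2) ^ 3 - 16 * ω ^ 2 * (1 - A ^ 2) + 64 * ω ^ 4 : ℂ) = 0 :=
      (mul_eq_zero.1 this).resolve_right t2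
    have h6 : (1 - A ^ 2) ^ 3 - 16 * ω ^ 2 * (1 - A ^ 2) + 64 * ω ^ 4 = 0 := by exact_mod_cast this
    rw [hA, show ω = (s ^ 2 - 1) / 2 by linarith] at h6
    have h7 : (s - 1) ^ 5 * (s ^ 3 + 5 * s ^ 2 - s - 1) = 0 := by linear_combination h6 / 4
    have h8 : 0 < (s - 1) ^ 5 * (s ^ 3 + 5 * s ^ 2 - s - 1) :=
      mul_pos (pow_pos (by linarith) 5) (by nlinarith)
    linarith

end Pool.Agent.Results.MP_e0279d_an.NotLine
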